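import Pool.Agent.Run7.h932.DS.Stm

set_option autoImplicit false

/-!
Basic facts on trails (project DS of helper932).
-/

namespace Run7.h228.DS

open Finset Classical Run7.h932.DS

variable {n m : ℕ} {v : HE m → Fin n} {π : Equiv.Perm (HE m)}

/-- The passage in the other direction. -/
def flp (p : HE m) : HE m := (p.1, !p.2)

theorem flp_flp (p : HE m) : flp (flp p) = p := by
  rcases p with ⟨j, b⟩
  simp [flp]

theorem walk_append (w₁ w₂ : List (HE m)) (x y : Fin n) :
    IsWalk v π (w₁ ++ w₂) x y ↔ ∃ z, IsWalk v π w₁ x z ∧ IsWalk v π w₂ z y := by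
  induction w₁ generalizing x with
  | nil => simp [IsWalk]
  | cons p w ih =>
    simp only [List.cons_append, IsWalk, ih]
    constructor
    · rintro ⟨h, z, h1, h2⟩
      exact ⟨z, ⟨h, h1⟩, h2⟩
    · rintro ⟨z, ⟨h, h1⟩, h2⟩
      exact ⟨h, z, h1, h2⟩

theorem walk_rev (w : List (HE m)) (x y : Fin n) (h : IsWalk v π w x y) :
    IsWalk v π (w.reverse.map flp) y x := by
  induction w generalizing x with
  | nil =>
    simp only [IsWalk] at h
    simp [IsWalk, h]
  | cons p w ih =>
    simp only [IsWalk] at h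
    rw [List.reverse_cons, List.map_append, walk_append]
    refine ⟨_, ih _ h.2, ?_⟩
    simp only [List.map_cons, List.map_nil, IsWalk, flp, Bool.not_not, true_and]
    exact h.1

theorem trail_symm {L : ℕ} {S : Set (Fin m)} {x y : Fin n} (h : Trail v π L S x y) :
    Trail v π L S y x := by
  obtain ⟨w, h1, h2, h3, h4⟩ := h
  have hf : (w.reverse.map flp).map Prod.fst = (w.map Prod.fst).reverse := by
    rw [List.map_map, ← List.map_reverse]
    rfl
  refine ⟨w.reverse.map flp, by simpa using h1, ?_, ?_, walk_rev w x y h4⟩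
  · rw [hf]
    exact List.nodup_reverse.mpr h2
  · intro p hp
    rw [List.mem_map] at hp
    obtain ⟨q, hq, rfl⟩ := hp
    exact h3 q (by simpa using hq)

theorem trail_mono {L L' : ℕ} {S S' : Set (Fin m)} {x y : Fin n} (h : Trail v π L S x y)
    (hL : L ≤ L') (hS : S' ⊆ S) : Trail v π L' S' x y := by
  obtain ⟨w, h1, h2, h3, h4⟩ := h
  exact ⟨w, h1.trans hL, h2, fun p hp hs => h3 p hp (hS hs), h4⟩

/-- Walks which do not see the difference of two permutations. -/
theorem walk_congr {π' : Equiv.Perm (HE m)} (w : List (HE m)) (x y : Fin n)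
    (h : ∀ p ∈ w, ∀ b, π (p.1, b) = π' (p.1, b)) (hw : IsWalk v π w x y) : IsWalk v π' w x y := by
  induction w generalizing x with
  | nil => simpa [IsWalk] using hw
  | cons p w ih =>
    simp only [IsWalk] at hw ⊢
    have hp := h p (by simp)
    refine ⟨?_, ?_⟩
    · rw [← hw.1]
      exact congrArg v (hp p.2).symm
    · rw [← hp]
      exact ih _ (fun q hq => h q (by simp [hq])) hw.2

theorem sw_apply_of_ne {i j e : Fin m} (hi : e ≠ i) (hj : e ≠ j) (b : Bool) :
    sw π i j (e, b) = π (e, b) := by
  unfold sw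
  rw [Equiv.Perm.mul_apply, Equiv.swap_apply_of_ne_of_ne]
  · intro h
    exact hi (congrArg Prod.fst h)
  · intro h
    exact hj (congrArg Prod.fst h)

theorem sw_true (i j e : Fin m) : sw π i j (e, true) = π (e, true) := by
  unfold sw
  rw [Equiv.Perm.mul_apply, Equiv.swap_apply_of_ne_of_ne] <;> simp

theorem sw_left (i j : Fin m) : sw π i j (i, false) = π (j, false) := by
  unfold sw
  rw [Equiv.Perm.mul_apply, Equiv.swap_apply_left]

theorem sw_right (i j : Fin m) : sw π i j (j, false) = π (i, false) := by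
  unfold sw
  rw [Equiv.Perm.mul_apply, Equiv.swap_apply_right]

theorem far_ne {D : ℕ} {i j : Fin m} (h : Far v π D i j) : i ≠ j := by
  rintro rfl
  exact h true true ⟨[], by simp, by simp, by simp, rfl⟩

end Run7.h228.DS
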