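import Pool.Agent.Run7.h228.DS.Base

set_option autoImplicit false

/-!
Pieces FAR and REV of the project DS of helper932.
-/

namespace Run7.h228.DS

open Finset Classical Run7.h932.DS

/-- The bound for the number of the edges at distance at most `D` of a vertex. -/
def bd (Δ : ℕ) : ℕ → ℕ
  | 0 => Δ
  | D + 1 => Δ + Δ * bd Δ D

/-- The edges at distance at most `D` of `x`. -/
noncomputable def near {n m : ℕ} (v : HE m → Fin n) (π : Equiv.Perm (HE m)) (D : ℕ) (x : Fin n) :
    Finset (Fin m) :=
  univ.filter fun j => ∃ b, ∃ w : List (HE m), w.length ≤ D ∧ IsWalk v π w x (v (π (j, b)))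

/-- The positions at a vertex. -/
theorem card_pos {n m Δ : ℕ} (v : HE m → Fin n) (π : Equiv.Perm (HE m))
    (hv : ∀ x, cnt v x ≤ Δ) (x : Fin n) : (univ.filter fun p => v (π p) = x).card ≤ Δ := by
  refine le_trans ?_ (hv x)
  unfold cnt
  refine Finset.card_le_card_of_injOn π ?_ (π.injective.injOn)
  intro p hp
  simpa using hp

theorem card_near {n m Δ : ℕ} (v : HE m → Fin n) (π : Equiv.Perm (HE m))
    (hv : ∀ x, cnt v x ≤ Δ) (D : ℕ) : ∀ x : Fin n, (near v π D x).card ≤ bd Δ D := by
  induction D with
  | zero =>
    intro x
    refine le_trans ?_ (card_pos v π hv x)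
    have : near v π 0 x ⊆ (univ.filter fun p => v (π p) = x).image Prod.fst := by
      intro j hj
      simp only [near, mem_filter, mem_univ, true_and] at hj
      obtain ⟨b, w, h1, h2⟩ := hj
      have hw : w = [] := List.length_eq_zero_iff.mp (Nat.le_zero.mp h1)
      subst hw
      simp only [IsWalk] at h2
      rw [mem_image]
      exact ⟨(j, b), by simp [h2], rfl⟩
    exact (card_le_card this).trans card_image_le
  | succ D ih =>
    intro x
    have : near v π (D + 1) x ⊆ (univ.filter fun p => v (π p) = x).image Prod.fst ∪
        (univ.filter fun p => v (π p) = x).biUnion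
          fun p => near v π D (v (π (p.1, !p.2))) := by
      intro j hj
      simp only [near, mem_filter, mem_univ, true_and] at hj
      obtain ⟨b, w, h1, h2⟩ := hj
      rcases w with _ | ⟨p, w⟩
      · simp only [IsWalk] at h2
        rw [mem_union, mem_image]
        exact Or.inl ⟨(j, b), by simp [h2], rfl⟩
      · simp only [IsWalk] at h2
        rw [mem_union, mem_biUnion]
        refine Or.inr ⟨p, by simp [h2.1], ?_⟩
        simp only [near, mem_filter, mem_univ, true_and]
        refine ⟨b, w, ?_, h2.2⟩
        simpa using h1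
    refine (card_le_card this).trans ((card_union_le _ _).trans ?_)
    have h1 := card_pos v π hv x
    have h2 : ((univ.filter fun p => v (π p) = x).image Prod.fst).card ≤ Δ :=
      card_image_le.trans h1
    have h3 : ((univ.filter fun p => v (π p) = x).biUnion
        fun p => near v π D (v (π (p.1, !p.2)))).card ≤ Δ * bd Δ D := by
      refine (card_biUnion_le_card_mul _ _ _ fun p _ => ih _).trans ?_
      exact Nat.mul_le_mul_right _ h1
    show _ ≤ Δ + Δ * bd Δ D
    omega

theorem t_FAR : S_FAR := by
  intro Δ D
  refine ⟨2 * bd Δ D, ?_⟩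
  intro n m v π hv
  have hsub : ∀ x : Fin n, (univ.filter fun j : Fin m => ∃ b, Trail v π D ∅ x (v (π (j, b)))) ⊆
      near v π D x := by
    intro x j hj
    simp only [near, mem_filter, mem_univ, true_and] at hj ⊢
    obtain ⟨b, w, h1, _, _, h4⟩ := hj
    exact ⟨b, w, h1, h4⟩
  refine ⟨?_, ?_⟩
  · intro x
    have h1 := card_near v π hv D x
    have h2 := card_le_card (hsub x)
    omega
  · intro i
    have : (univ.filter fun j => ¬ Far v π D i j) ⊆
        near v π D (v (π (i, false))) ∪ near v π D (v (π (i, true))) := by
      intro j hj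
      simp only [mem_filter, mem_univ, true_and, Far, not_forall, not_not] at hj
      obtain ⟨b, b', h⟩ := hj
      rw [mem_union]
      have : j ∈ near v π D (v (π (i, b))) := by
        apply hsub
        simp only [mem_filter, mem_univ, true_and]
        exact ⟨b', h⟩
      rcases b
      · exact Or.inl this
      · exact Or.inr this
    have h1 := card_near v π hv D (v (π (i, false)))
    have h2 := card_near v π hv D (v (π (i, true)))
    have h3 := (card_le_card this).trans (card_union_le _ _)
    omega

theorem t_REV (hF : S_FAR) : S_REV := by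
  intro L Δ
  obtain ⟨C, hC⟩ := hF Δ L
  refine ⟨C, ?_⟩
  intro n m v π' hv
  have hCv := (hC n m v π' hv).1
  have hsub : (univ.filter fun z : Fin m × Fin m =>
      Bad v (sw π' z.1 z.2) L z.1 ∧ Far v (sw π' z.1 z.2) (2 * L + 2) z.1 z.2) ⊆
      (univ : Finset (Fin m)).biUnion fun i =>
        (univ.filter fun j : Fin m => ∃ b, Trail v π' L ∅ (v (π' (i, true))) (v (π' (j, b)))).image
          fun j => (i, j) := by
    rintro ⟨i, j⟩ hz
    simp only [mem_filter, mem_univ, true_and] at hz
    obtain ⟨hb, hf⟩ := hz
    have hij : i ≠ j := far_ne hf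
    obtain ⟨w, h1, h2, h3, h4⟩ := hb
    have hj : ∀ p ∈ w, p.1 ≠ j := by
      intro p hp hpj
      obtain ⟨w₁, w₂, rfl⟩ := List.append_of_mem hp
      rw [walk_append] at h4
      obtain ⟨z, hz1, hz2⟩ := h4
      simp only [IsWalk] at hz2
      obtain ⟨j', b⟩ := p
      simp only at hpj
      subst hpj
      refine hf false b ⟨w₁, ?_, ?_, by simp, ?_⟩
      · simp only [List.length_append, List.length_cons] at h1
        omega
      · rw [List.map_append] at h2
        exact (List.nodup_append.mp h2).1
      · rw [hz2.1]
        exact hz1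
    have hw : IsWalk v π' w (v (π' (j, false))) (v (π' (i, true))) := by
      have h5 := walk_congr (π' := π') w _ _ (fun p hp b => ?_) h4
      · rw [sw_left, sw_true] at h5
        exact h5
      · apply sw_apply_of_ne
        · intro hpi
          exact h3 p hp hpi
        · exact hj p hp
    have ht : Trail v π' L ∅ (v (π' (j, false))) (v (π' (i, true))) :=
      ⟨w, h1, h2, by simp, hw⟩
    rw [mem_biUnion]
    refine ⟨i, mem_univ _, ?_⟩
    rw [mem_image]
    refine ⟨j, ?_, rfl⟩
    simp only [mem_filter, mem_univ, true_and]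
    exact ⟨false, trail_symm ht⟩
  refine (card_le_card hsub).trans ?_
  refine (card_biUnion_le_card_mul _ _ C fun i _ => card_image_le.trans (hCv _)).trans ?_
  rw [card_univ, Fintype.card_fin, mul_comm]

end Run7.h228.DS
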